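import Pool.Agent.N737.AI.Top

set_option autoImplicit false

/-!
# Odd congruent numbers in almost all intervals of length `C X^(9/16)`, in all odd classes mod `16`

For every `ε > 0` there are `c, C > 0` such that for all large `X` all but at most `ε X` of the
integers `x ≤ X` have the following property: for every odd class `r` modulo `16` and ALL
`1 ≤ K ≤ c X^(3/16)` the interval `[x, x + C K X^(9/16)]` contains at least `K` squarefree congruent
numbers `n ≡ r` modulo `16`.

The starting results on this page treat all intervals `[X, X + X^θ]` with `θ > 2/3`; for almost all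
intervals the exponent `9/16 < 2/3` suffices, and then the numbers are evenly spread on all scales
from `X^(9/16)` to `X^(3/4)`.  In the classes `1` and `3` modulo `8` (where the condition
`2 |A_n| = |B_n|` of the question is a real condition) the congruent numbers have density zero, and
about `X^(1/2)` of them up to `X` are known, so that `1/2` is the limit of the method.

Proof.  Let `w` be large and `m` the product of the odd numbers below `w`.  The numbers are
`(T⁴ - r⁴) / 16` with `T` divisible by `m`, `T ≡ 1` modulo `64`, `r` prime to `m` and in a class modulo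
`64` which depends on the class of `n`.  For `x` take the first admissible `T` with
`T⁴ ≥ 16 x + O(1)` and then the largest admissible `r` with `T⁴ - r⁴ ≥ 16 x`; here
`r ≪ T^(3/4)` and the distance to `x` is at most `C T^(9/4)`.  The number is not squarefree only if
the square of a prime `p ≥ w` divides one of `T - r`, `T + r`, `T² + r²` (or `p` divides `T` and `r`),
and this happens for a proportion `O(1 / w)` of all pairs `(T, r)`; the number of the primes `p`
up to `2 T` is `o(T)`.  The constants depending on `w` cancel.  For all `K` at once a reflected walk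
(one step up at a bad `r`, one step down at a good one) shows that the number of the `r` for which
some window of `2 K` admissible numbers ending at `r` contains more than `K` bad ones is at most
twice the number of the bad ones.
-/

namespace Pool.Agent.Results.MP_05dcdc_nt.AlmostAllIntervals

/-- `n` is a congruent number: the area of a right triangle with rational sides. -/
def IsCongruent (n : ℕ) : Prop :=
  ∃ a b c : ℚ, 0 < a ∧ 0 < b ∧ 0 < c ∧ a ^ 2 + b ^ 2 = c ^ 2 ∧ (n : ℚ) = a * b / 2

/-- **Almost all intervals of length `C K X^(9/16)`, all `K` at once.** For every `ε > 0` there are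
`c, C > 0` and `X₀` such that for all `X ≥ X₀` the following holds for all but at most `ε X` of the
integers `1 ≤ x ≤ X`: for every odd `r < 16` and every integer `1 ≤ K ≤ c X^(3/16)` there are at
least `K` squarefree congruent numbers `n ≡ r` modulo `16` with `x ≤ n ≤ x + C K X^(9/16)`. -/
theorem result : ∀ ε : ℝ, 0 < ε → ∃ c C : ℝ, 0 < c ∧ 0 < C ∧ ∃ X₀ : ℕ, ∀ X : ℕ, X₀ ≤ X →
    (({x : ℕ | 1 ≤ x ∧ x ≤ X ∧ ¬ ∀ r : ℕ, r < 16 → Odd r → ∀ K : ℕ, 1 ≤ K →
      (K : ℝ) ≤ c * (X : ℝ) ^ (3 / 16 : ℝ) →
        K ≤ {n : ℕ | x ≤ n ∧ (n : ℝ) ≤ x + C * K * (X : ℝ) ^ (9 / 16 : ℝ) ∧ n % 16 = r ∧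
          Squarefree n ∧ IsCongruent n}.ncard}.ncard : ℕ) : ℝ) ≤ ε * X := by
  classical
  intro ε hε
  obtain ⟨c, C, hc, hC, X₀, h⟩ := Pool.Agent.N737.AI.main2 ε hε
  refine ⟨c, C, hc, hC, X₀, fun X hX => ?_⟩
  refine le_trans (Nat.cast_le.2 ?_) (h X hX)
  rw [← Set.ncard_coe_finset]
  apply Set.ncard_le_ncard
  · rintro x ⟨hx1, hx2, hx3⟩
    rw [Finset.mem_coe, Finset.mem_filter, Finset.mem_Icc]
    refine ⟨⟨hx1, hx2⟩, fun hall => hx3 fun r hr hodd K hK1 hK2 => ?_⟩
    rw [Nat.odd_iff] at hodd
    exact hall r hr (by omega) K hK1 hK2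
  · exact Finset.finite_toSet _

end Pool.Agent.Results.MP_05dcdc_nt.AlmostAllIntervals
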