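import Pool.Agent.N737.BC.Fin

set_option autoImplicit false

/-!
# Clusters of bounded length of odd squarefree congruent numbers in all odd classes modulo `8`

There are absolute constants `c, C > 0` such that for all large `X` and all `1 ≤ K ≤ c X^(1/4)` at
least `c X^(1/4)` of the `n ≤ X` have the following property: for each `r = 1, 3, 5, 7` the
interval `[n, n + C K⁴]` contains at least `K` squarefree congruent numbers `≡ r` modulo `8`.
The length of the interval does not depend on `X`; in the starting result `Clusters` it is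
`C K⁴ X^(1/3)`.  In the classes `1` and `3` (the numbers for which the condition `2 |A_n| = |B_n|` of
the question is a real condition) the congruent numbers have density zero.

Proof.  The numbers are `(T⁴ - r⁴) / 16`, the areas of the triangles with the sides
`(T⁴ - r⁴) / (4 T r)`, `T r / 2`, `(T⁴ + r⁴) / (4 T r)`.  For fixed `T ≡ 1` modulo `32` the class of this
number modulo `8` depends only on `r` modulo `32`, and all odd classes occur.  For `T` divisible by
`3·5·7·11·13` and `r` prime to it the mean proportion of the pairs `(T, r)` for which a prime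
`p ≥ 17` divides the number twice is less than `0.17`, uniformly in the number of the `r`; here the
large primes are harmless since `T⁴ - r⁴` has only factors of degree at most two.
-/

namespace Pool.Agent.Results.MP_05dcdc_nt.BoundedClusters

/-- `n` is a congruent number: the area of a right triangle with rational sides. -/
def IsCongruent (n : ℕ) : Prop :=
  ∃ a b c : ℚ, 0 < a ∧ 0 < b ∧ 0 < c ∧ a ^ 2 + b ^ 2 = c ^ 2 ∧ (n : ℚ) = a * b / 2

/-- **Clusters of bounded length.** There are constants `c, C > 0` and `X₀` such that for all real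
`X ≥ X₀` and all integers `1 ≤ K ≤ c X^(1/4)` there are at least `c X^(1/4)` integers `n ≤ X` such
that for each `r = 1, 3, 5, 7` the interval `[n, n + C K⁴]` contains at least `K` squarefree
congruent numbers `m ≡ r` modulo `8`. -/
theorem result : ∃ c C X₀ : ℝ, 0 < c ∧ 0 < C ∧ ∀ X : ℝ, X₀ ≤ X → ∀ K : ℕ, 1 ≤ K →
    (K : ℝ) ≤ c * X ^ (1 / 4 : ℝ) →
    c * X ^ (1 / 4 : ℝ) ≤ (({n : ℕ | (n : ℝ) ≤ X ∧ ∀ r : ℕ, (r = 1 ∨ r = 3 ∨ r = 5 ∨ r = 7) →
      K ≤ {m : ℕ | n ≤ m ∧ (m : ℝ) ≤ n + C * (K : ℝ) ^ 4 ∧ m % 8 = r ∧ Squarefree m ∧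
        IsCongruent m}.ncard}.ncard : ℕ) : ℝ) := by
  obtain ⟨c, C, X₀, hc, hC, h⟩ := Pool.Agent.N737.BC.clusters {37, 29, 43, 19} (by decide)
    (fun ρ => if ρ = 37 then 1 else if ρ = 29 then 3 else if ρ = 43 then 5 else 7)
    (by
      intro ρ hρ
      simp only [Finset.mem_insert, Finset.mem_singleton] at hρ
      unfold Pool.Agent.N737.BC.Cls
      rcases hρ with rfl | rfl | rfl | rfl <;> simp)
  refine ⟨c, C, X₀, hc, hC, fun X hX K hK hKX => (h X hX K hK hKX).trans ?_⟩
  rw [Nat.cast_le]
  apply Set.ncard_le_ncard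
  · rintro n ⟨hn, hcl⟩
    refine ⟨hn, ?_⟩
    rintro r (rfl | rfl | rfl | rfl)
    · exact hcl 37 (by decide)
    · exact hcl 29 (by decide)
    · exact hcl 43 (by decide)
    · exact hcl 19 (by decide)
  · apply Set.Finite.subset (Set.finite_Iic ⌊X⌋₊)
    intro n hn
    exact Nat.le_floor hn.1

end Pool.Agent.Results.MP_05dcdc_nt.BoundedClusters
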